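import Pool.Agent.Helper95_Entire.Final

set_option autoImplicit false

/-!
# The positive-existential theory of the ring of entire functions of `n ≥ 2` variables

We prove that for every `n ≥ 2` there is no algorithm which, given a finite list of finite systems
of polynomial equations with coefficients in `ℤ[z₁, …, zₙ]`, decides whether at least one of them
has a solution in the ring of entire functions on `ℂⁿ`.  This is the negated form of Q2, for all
`n ≥ 2`.

Outline.  Functions `A(t, w) + B(t, w) x` with `x² - w x + 1 = 0` and `A, B` entire are the
functions entire in `(t, s)` and `1`-periodic in `s`, with `x = e^{2πis}`, `w = 2 cos 2πs`.  Let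
`Y` be the punctured affine cone `y² = x³ - x z⁴`, `(x, z) ≠ 0`; it is a `ℂˣ`-bundle of degree one
over the elliptic curve `ℂ / (ℤ + ℤi)`, uniformised by theta functions, and its fundamental group is
the integral Heisenberg group.  If two maps `F, G : ℂ × (ℂ/ℤ) → Y` agree at `t = 0`, if `F = u G` at
`t = 1` with a unit `u`, and if `G` is constant along `s = 0`, then the degree of `u` is the
symplectic pairing of the period of `F` in `s` and of its displacement in `t`.  All these conditions
are polynomial equations (non-vanishing is expressed by Bezout identities), and four such maps fix
dual bases of the lattice; so addition and multiplication of degrees are existentially definable.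
Conversely every integer solution is realised by explicit theta functions, with Bezout coefficients
given by an explicit interpolation series.  One concludes with the theorem of Davis, Putnam,
Robinson and Matiyasevich.
-/

namespace Pool.Agent.Results.MP_af909d_lc.Undecidable

open Pool.Agent.Helper95_Entire

/-- For every `n ≥ 2`: it is undecidable whether at least one of finitely many given finite systems
of polynomial equations with coefficients in `ℤ[z₁, …, zₙ]` has a solution in the ring of entire
functions on `ℂⁿ`. -/
theorem result (n : ℕ) (hn : 2 ≤ n) :
    ¬ ComputablePred (fun Φ : List (List (Poly n)) => ∃ S ∈ Φ, Solvable n S) :=
  not_computable_posExists n hn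

end Pool.Agent.Results.MP_af909d_lc.Undecidable
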